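import Pool.Agent.Q314.Hz.Perm

/-!
# Counting the permutations which avoid a pattern: only the shifts matter
-/

namespace Pool.Agent.Q314.Hz

open Classical in
/-- replace the pattern `s` by `t` at the blocks of `M` -/
noncomputable def gfun (k : ℕ) (t f : ℕ → ℕ) (M : Finset (ℕ × ℕ)) (p : ℕ) : ℕ :=
  if h : ∃ β ∈ M, β.1 ≤ p ∧ p < β.1 + k then t (p - h.choose.1) + h.choose.2 else f p

section
variable {k n : ℕ} {s t f : ℕ → ℕ} {M : Finset (ℕ × ℕ)}

/-- the data of the replacement -/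
structure Dat (k n : ℕ) (s t f : ℕ → ℕ) (M : Finset (ℕ × ℕ)) : Prop where
  hk : 1 ≤ k
  hs : IsP k s
  ht : IsP k t
  hf : IsP n f
  hM : ∀ β ∈ M, AtB k n s f β
  hd : ∀ u, 1 ≤ u → u < k → ¬ Dn s k u
  hup : ∀ β ∈ M, ∀ γ ∈ M, ∀ u, 1 ≤ u → u < k → γ = (β.1 + u, β.2 + u) → Up s k u → Up t k u

theorem Dat.near (D : Dat k n s t f M) {β γ : ℕ × ℕ} (hβ : β ∈ M) (hγ : γ ∈ M) (h1 : β.1 < γ.1)
    (h2 : γ.1 < β.1 + k) : γ.2 = β.2 + (γ.1 - β.1) ∧ Up t k (γ.1 - β.1) := by
  rcases overlap D.hs D.hf (D.hM β hβ) (D.hM γ hγ) h1 h2 with ⟨h3, h4⟩ | ⟨_, h4⟩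
  · refine ⟨h3, D.hup β hβ γ hγ _ (by omega) (by omega) ?_ h4⟩
    exact Prod.ext (show γ.1 = β.1 + (γ.1 - β.1) by omega) h3
  · exact absurd h4 (D.hd _ (by omega) (by omega))

theorem Dat.wd (D : Dat k n s t f M) {β γ : ℕ × ℕ} (hβ : β ∈ M) (hγ : γ ∈ M) {p : ℕ}
    (h1 : β.1 ≤ p) (h2 : p < β.1 + k) (h3 : γ.1 ≤ p) (h4 : p < γ.1 + k) :
    t (p - β.1) + β.2 = t (p - γ.1) + γ.2 := by
  have main : ∀ β γ : ℕ × ℕ, β ∈ M → γ ∈ M → β.1 ≤ p → p < β.1 + k → γ.1 ≤ p → p < γ.1 + k →
      β.1 < γ.1 → t (p - β.1) + β.2 = t (p - γ.1) + γ.2 := by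
    intro β γ hβ hγ h1 h2 h3 h4 hlt
    obtain ⟨e1, e2⟩ := D.near hβ hγ hlt (by omega)
    have := e2 (p - γ.1) (by omega)
    rw [show p - γ.1 + (γ.1 - β.1) = p - β.1 by omega] at this
    omega
  rcases lt_trichotomy β.1 γ.1 with h | h | h
  · exact main β γ hβ hγ h1 h2 h3 h4 h
  · rw [same_column D.hk (D.hM β hβ) (D.hM γ hγ) h]
  · exact (main γ β hγ hβ h3 h4 h1 h2 h).symm

theorem Dat.cov (D : Dat k n s t f M) {β : ℕ × ℕ} (hβ : β ∈ M) {p : ℕ}
    (h1 : β.1 ≤ p) (h2 : p < β.1 + k) : gfun k t f M p = t (p - β.1) + β.2 := by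
  have hex : ∃ β ∈ M, β.1 ≤ p ∧ p < β.1 + k := ⟨β, hβ, h1, h2⟩
  unfold gfun
  rw [dif_pos hex]
  have hc := hex.choose_spec
  exact D.wd hc.1 hβ hc.2.1 hc.2.2 h1 h2

theorem gfun_uncov {p : ℕ} (h : ¬ ∃ β ∈ M, β.1 ≤ p ∧ p < β.1 + k) : gfun k t f M p = f p := by
  unfold gfun
  rw [dif_neg h]

theorem Dat.isP (D : Dat k n s t f M) : IsP n (gfun k t f M) := by
  have c1 : ∀ β γ : ℕ × ℕ, β ∈ M → γ ∈ M → ∀ p q, β.1 ≤ p → p < β.1 + k → γ.1 ≤ q → q < γ.1 + k →
      β.1 ≤ γ.1 → t (p - β.1) + β.2 = t (q - γ.1) + γ.2 → p = q := by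
    intro β γ hβ hγ p q h1 h2 h3 h4 hle he
    rcases hle.lt_or_eq with h | h
    · by_cases h5 : γ.1 < β.1 + k
      · obtain ⟨e1, e2⟩ := D.near hβ hγ h h5
        have e3 : γ.1 ≤ p := by
          by_contra hcon
          have := (up_low D.ht (by omega) e2).1 (p - β.1) (by omega)
          omega
        have e4 := D.wd hβ hγ h1 h2 e3 (by omega)
        have := D.ht.2 (p - γ.1) (q - γ.1) (by omega) (by omega) (by omega)
        omega
      · have a1 := D.ht.1 (p - β.1) (by omega)
        have a2 := D.ht.1 (q - γ.1) (by omega)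
        rcases disjoint_rows D.hk D.hs D.hf (D.hM β hβ) (D.hM γ hγ) (by omega) with h6 | h6 <;> omega
    · have := same_column D.hk (D.hM β hβ) (D.hM γ hγ) h
      subst this
      have := D.ht.2 (p - β.1) (q - β.1) (by omega) (by omega) (by omega)
      omega
  have c2 : ∀ β ∈ M, ∀ p q, β.1 ≤ p → p < β.1 + k → q < n → t (p - β.1) + β.2 = f q →
      ∃ β ∈ M, β.1 ≤ q ∧ q < β.1 + k := by
    intro β hβ p q h1 h2 hq he
    have a1 := D.ht.1 (p - β.1) (by omega)
    obtain ⟨j, hj, hjv⟩ := D.hs.surj (t (p - β.1)) a1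
    have a2 := (D.hM β hβ).2.2 j hj
    have a3 := (D.hM β hβ).1
    have a4 := D.hf.2 (β.1 + j) q (by omega) hq (by omega)
    exact ⟨β, hβ, by omega, by omega⟩
  constructor
  · intro p hp
    by_cases h : ∃ β ∈ M, β.1 ≤ p ∧ p < β.1 + k
    · obtain ⟨β, hβ, h1, h2⟩ := h
      rw [D.cov hβ h1 h2]
      have a1 := D.ht.1 (p - β.1) (by omega)
      have a2 := (D.hM β hβ).2.1
      omega
    · rw [gfun_uncov h]
      exact D.hf.1 p hp
  · intro p q hp hq he
    by_cases h : ∃ β ∈ M, β.1 ≤ p ∧ p < β.1 + k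
    · obtain ⟨β, hβ, h1, h2⟩ := h
      rw [D.cov hβ h1 h2] at he
      by_cases h' : ∃ β ∈ M, β.1 ≤ q ∧ q < β.1 + k
      · obtain ⟨γ, hγ, h3, h4⟩ := h'
        rw [D.cov hγ h3 h4] at he
        rcases le_total β.1 γ.1 with h5 | h5
        · exact c1 β γ hβ hγ p q h1 h2 h3 h4 h5 he
        · exact (c1 γ β hγ hβ q p h3 h4 h1 h2 h5 he.symm).symm
      · rw [gfun_uncov h'] at he
        exact absurd (c2 β hβ p q h1 h2 hq he) h'
    · rw [gfun_uncov h] at he
      by_cases h' : ∃ β ∈ M, β.1 ≤ q ∧ q < β.1 + k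
      · obtain ⟨γ, hγ, h3, h4⟩ := h'
        rw [D.cov hγ h3 h4] at he
        exact absurd (c2 γ hγ q p h3 h4 hp he.symm) h
      · rw [gfun_uncov h'] at he
        exact D.hf.2 p q hp hq he

end

/-- a permutation of `Fin n` as a function on `ℕ` -/
def fn {n : ℕ} (π : Equiv.Perm (Fin n)) (j : ℕ) : ℕ := if h : j < n then (π ⟨j, h⟩ : ℕ) else j

theorem fn_val {n : ℕ} (π : Equiv.Perm (Fin n)) (j : Fin n) : fn π j = π j := by
  unfold fn
  rw [dif_pos j.2]

theorem fn_isP {n : ℕ} (π : Equiv.Perm (Fin n)) : IsP n (fn π) := by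
  constructor
  · intro j hj
    rw [fn, dif_pos hj]
    exact (π ⟨j, hj⟩).2
  · intro i j hi hj he
    rw [fn, fn, dif_pos hi, dif_pos hj] at he
    have := π.injective (Fin.ext he)
    simpa using this

theorem fn_inj {n : ℕ} {π ρ : Equiv.Perm (Fin n)} (h : ∀ j, j < n → fn π j = fn ρ j) : π = ρ := by
  ext j
  have := h j j.2
  rwa [fn_val, fn_val] at this

/-- the permutation given by a function on `ℕ` -/
noncomputable def mkP {n : ℕ} (f : ℕ → ℕ) (h : IsP n f) : Equiv.Perm (Fin n) :=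
  Equiv.ofBijective (fun p : Fin n => (⟨f p, h.1 p p.2⟩ : Fin n))
    (Finite.injective_iff_bijective.1 (fun i j he => by
      have : f i = f j := by simpa using he
      exact Fin.ext (h.2 i j i.2 j.2 this)))

theorem fn_mkP {n : ℕ} {f : ℕ → ℕ} (h : IsP n f) {j : ℕ} (hj : j < n) : fn (mkP f h) j = f j := by
  rw [fn, dif_pos hj]
  rfl

open Classical in
/-- number of permutations with occurrences of `s` at all blocks of `M` -/
noncomputable def N (k n : ℕ) (s : ℕ → ℕ) (M : Finset (ℕ × ℕ)) : ℕ :=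
  (Finset.univ.filter fun π : Equiv.Perm (Fin n) => ∀ β ∈ M, AtB k n s (fn π) β).card

theorem AtB.congr {k n : ℕ} {s f g : ℕ → ℕ} {β : ℕ × ℕ} (h : AtB k n s f β)
    (hfg : ∀ j, j < n → f j = g j) : AtB k n s g β := by
  refine ⟨h.1, h.2.1, fun j hj => ?_⟩
  have := h.1
  rw [← hfg _ (by omega)]
  exact h.2.2 j hj

theorem N_le {k n : ℕ} {s t : ℕ → ℕ} {M : Finset (ℕ × ℕ)} (hk : 1 ≤ k) (hs : IsP k s) (ht : IsP k t)
    (hd : ∀ u, 1 ≤ u → u < k → ¬ Dn s k u)
    (hup : ∀ β ∈ M, ∀ γ ∈ M, ∀ u, 1 ≤ u → u < k → γ = (β.1 + u, β.2 + u) → Up s k u → Up t k u) :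
    N k n s M ≤ N k n t M := by
  classical
  have hD : ∀ π : Equiv.Perm (Fin n), (∀ β ∈ M, AtB k n s (fn π) β) → Dat k n s t (fn π) M :=
    fun π hπ => ⟨hk, hs, ht, fn_isP π, hπ, hd, hup⟩
  let Φ : Equiv.Perm (Fin n) → Equiv.Perm (Fin n) := fun π =>
    if h : IsP n (gfun k t (fn π) M) then mkP _ h else π
  have hΦ : ∀ π : Equiv.Perm (Fin n), (∀ β ∈ M, AtB k n s (fn π) β) → ∀ j, j < n →
      fn (Φ π) j = gfun k t (fn π) M j := by
    intro π hπ j hj
    simp only [Φ]
    rw [dif_pos (hD π hπ).isP, fn_mkP _ hj]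
  unfold N
  refine Finset.card_le_card_of_injOn Φ ?_ ?_
  · intro π hπ
    simp only [Finset.coe_filter, Finset.mem_univ, true_and, Set.mem_setOf_eq] at hπ ⊢
    intro β hβ
    have hb := hπ β hβ
    refine ⟨hb.1, hb.2.1, fun j hj => ?_⟩
    have := hb.1
    rw [hΦ π hπ _ (by omega), (hD π hπ).cov hβ (by omega) (by omega)]
    congr 2
    omega
  · intro π hπ ρ hρ he
    simp only [Finset.coe_filter, Finset.mem_univ, true_and, Set.mem_setOf_eq] at hπ hρ
    apply fn_inj
    intro j hj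
    by_cases h : ∃ β ∈ M, β.1 ≤ j ∧ j < β.1 + k
    · obtain ⟨β, hβ, h1, h2⟩ := h
      have e1 := (hπ β hβ).2.2 (j - β.1) (by omega)
      have e2 := (hρ β hβ).2.2 (j - β.1) (by omega)
      rw [show β.1 + (j - β.1) = j by omega] at e1 e2
      rw [e1, e2]
    · have e1 := hΦ π hπ j hj
      have e2 := hΦ ρ hρ j hj
      rw [gfun_uncov h] at e1 e2
      rw [← e1, ← e2, he]

open Classical in
/-- number of permutations which avoid `s` -/
noncomputable def Av (k n : ℕ) (s : ℕ → ℕ) : ℕ :=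
  (Finset.univ.filter fun π : Equiv.Perm (Fin n) => ∀ β, ¬ AtB k n s (fn π) β).card

/-- the possible blocks -/
def Bl (n : ℕ) : Finset (ℕ × ℕ) := Finset.range (n + 1) ×ˢ Finset.range (n + 1)

theorem mem_Bl {k n : ℕ} {s f : ℕ → ℕ} {β : ℕ × ℕ} (h : AtB k n s f β) : β ∈ Bl n := by
  have h1 := h.1
  have h2 := h.2.1
  simp only [Bl, Finset.mem_product, Finset.mem_range]
  omega

theorem Av_eq (k n : ℕ) (s : ℕ → ℕ) :
    (Av k n s : ℤ) = ∑ M ∈ (Bl n).powerset, (-1 : ℤ) ^ M.card * (N k n s M : ℤ) := by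
  classical
  have := Finset.inclusion_exclusion_card_inf_compl (Bl n)
    (fun β => (Finset.univ.filter fun π : Equiv.Perm (Fin n) => AtB k n s (fn π) β))
  have e1 : ((Bl n).inf fun β =>
      ((Finset.univ.filter fun π : Equiv.Perm (Fin n) => AtB k n s (fn π) β))ᶜ)
      = Finset.univ.filter fun π : Equiv.Perm (Fin n) => ∀ β, ¬ AtB k n s (fn π) β := by
    ext π
    rw [Finset.mem_inf]
    simp only [Finset.mem_compl, Finset.mem_filter, Finset.mem_univ, true_and]
    constructor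
    · intro h β hβ
      exact h β (mem_Bl hβ) hβ
    · intro h β _
      exact h β
  rw [e1] at this
  unfold Av
  rw [this]
  refine Finset.sum_congr rfl fun M _ => ?_
  congr 2
  unfold N
  congr 1
  ext π
  rw [Finset.mem_inf]
  simp only [Finset.mem_filter, Finset.mem_univ, true_and]

/-- patterns without downward shifts and with the same upward shifts are avoided equally often -/
theorem Av_eq_of {k : ℕ} {s t : ℕ → ℕ} (hk : 1 ≤ k) (hs : IsP k s) (ht : IsP k t)
    (hds : ∀ u, 1 ≤ u → u < k → ¬ Dn s k u) (hdt : ∀ u, 1 ≤ u → u < k → ¬ Dn t k u)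
    (hst : ∀ u, 1 ≤ u → u < k → (Up s k u ↔ Up t k u)) (n : ℕ) : Av k n s = Av k n t := by
  have : (Av k n s : ℤ) = Av k n t := by
    rw [Av_eq, Av_eq]
    refine Finset.sum_congr rfl fun M _ => ?_
    congr 2
    apply le_antisymm
    · exact N_le hk hs ht hds (fun _ _ _ _ u h1 h2 _ h => (hst u h1 h2).1 h)
    · exact N_le hk ht hs hdt (fun _ _ _ _ u h1 h2 _ h => (hst u h1 h2).2 h)
  exact_mod_cast this

/-- the smallest difference of the shifts is seen in the number of permutations of length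
`k + t₀` which avoid the pattern -/
theorem Av_ne_of {k t₀ : ℕ} {s t : ℕ → ℕ} (hs : IsP k s) (ht : IsP k t)
    (hds : ∀ u, 1 ≤ u → u < k → ¬ Dn s k u) (hdt : ∀ u, 1 ≤ u → u < k → ¬ Dn t k u)
    (h1 : 1 ≤ t₀) (h2 : t₀ < k) (hst : ∀ u, 1 ≤ u → u < t₀ → (Up s k u ↔ Up t k u))
    (hs0 : Up s k t₀) (ht0 : ¬ Up t k t₀) : Av k (k + t₀) s ≠ Av k (k + t₀) t := by
  classical
  have hk : 1 ≤ k := by omega
  set n := k + t₀ with hn
  set M₀ : Finset (ℕ × ℕ) := {(0, 0), (t₀, t₀)} with hM₀
  have hcard : M₀.card = 2 := by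
    rw [hM₀, Finset.card_pair]
    intro h
    have := congrArg Prod.fst h
    simp only at this
    omega
  -- sets of blocks which do not contain both corners
  have hA : ∀ M : Finset (ℕ × ℕ), ¬ M₀ ⊆ M → N k n s M = N k n t M := by
    intro M hM
    by_cases hbig : ∀ β ∈ M, β.1 + k ≤ n ∧ β.2 + k ≤ n
    · have hlt : ∀ β ∈ M, ∀ γ ∈ M, ∀ u, 1 ≤ u → γ = (β.1 + u, β.2 + u) → u < t₀ := by
        intro β hβ γ hγ u hu he
        by_contra hcon
        apply hM
        have b1 := hbig β hβ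
        have b2 := hbig γ hγ
        have g1 : γ.1 = β.1 + u := by rw [he]
        have g2 : γ.2 = β.2 + u := by rw [he]
        have hb0 : β = (0, 0) := Prod.ext (show β.1 = 0 by omega) (show β.2 = 0 by omega)
        have hg0 : γ = (t₀, t₀) := Prod.ext (show γ.1 = t₀ by omega) (show γ.2 = t₀ by omega)
        rw [hM₀]
        intro x hx
        rw [Finset.mem_insert, Finset.mem_singleton] at hx
        rcases hx with rfl | rfl
        · rw [← hb0]; exact hβ
        · rw [← hg0]; exact hγ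
      apply le_antisymm
      · exact N_le hk hs ht hds (fun β hβ γ hγ u h3 _ he h => (hst u h3 (hlt β hβ γ hγ u h3 he)).1 h)
      · exact N_le hk ht hs hdt (fun β hβ γ hγ u h3 _ he h => (hst u h3 (hlt β hβ γ hγ u h3 he)).2 h)
    · push Not at hbig
      obtain ⟨β, hβ, hb⟩ := hbig
      have hz : ∀ r : ℕ → ℕ, N k n r M = 0 := by
        intro r
        unfold N
        rw [Finset.card_eq_zero, Finset.filter_eq_empty_iff]
        intro π _ h
        have h3 := h β hβ
        have := hb h3.1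
        have := h3.2.1
        omega
      rw [hz, hz]
  -- no permutation has `t` at both corners
  have hB : ∀ M : Finset (ℕ × ℕ), M₀ ⊆ M → N k n t M = 0 := by
    intro M hM
    unfold N
    rw [Finset.card_eq_zero, Finset.filter_eq_empty_iff]
    intro π _ h
    have c1 := h (0, 0) (hM (by rw [hM₀]; simp))
    have c2 := h (t₀, t₀) (hM (by rw [hM₀]; simp))
    rcases overlap ht (fn_isP π) c1 c2 (by simp only; omega) (by simp only; omega) with h3 | h3
    · exact ht0 (by simpa using h3.2)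
    · exact hdt t₀ h1 h2 (by simpa using h3.2)
  have hC : ∀ M : Finset (ℕ × ℕ), M₀ ⊆ M → M ≠ M₀ → N k n s M = 0 := by
    intro M hM hne
    unfold N
    rw [Finset.card_eq_zero, Finset.filter_eq_empty_iff]
    intro π _ h
    have c1 := h (0, 0) (hM (by rw [hM₀]; simp))
    have c2 := h (t₀, t₀) (hM (by rw [hM₀]; simp))
    obtain ⟨β, hβ, hβ'⟩ : ∃ β ∈ M, β ∉ M₀ := by
      by_contra hcon
      push Not at hcon
      exact hne (Finset.Subset.antisymm hcon hM)
    rw [hM₀] at hβ'
    simp only [Finset.mem_insert, Finset.mem_singleton, not_or] at hβ'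
    have c3 := h β hβ
    have d1 : β.1 ≠ 0 := fun he => hβ'.1 (same_column hk c3 c1 he)
    have d2 : β.1 ≠ t₀ := fun he => hβ'.2 (same_column hk c3 c2 he)
    have d3 := c3.1
    have u1 : Up s k β.1 := by
      rcases overlap hs (fn_isP π) c1 c3 (by simp only; omega) (by simp only; omega) with h3 | h3
      · simpa using h3.2
      · exact absurd (by simpa using h3.2) (hds β.1 (by omega) (by omega))
    have u2 : Up s k (t₀ - β.1) := by
      rcases overlap hs (fn_isP π) c3 c2 (by simp only; omega) (by simp only; omega) with h3 | h3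
      · exact h3.2
      · exact absurd h3.2 (hds _ (by simp only; omega) (by simp only; omega))
    have v1 := (hst β.1 (by omega) (by omega)).1 u1
    have v2 := (hst (t₀ - β.1) (by omega) (by omega)).1 u2
    apply ht0
    have := up_add v1 v2
    rwa [show β.1 + (t₀ - β.1) = t₀ by omega] at this
  -- the two corners
  have hE : 0 < N k n s M₀ := by
    have hp : IsP n (fun p => if p < k then s p else s (p - t₀) + t₀) := by
      constructor
      · intro j hj
        simp only
        split_ifs with h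
        · have := hs.1 j h
          omega
        · have := hs.1 (j - t₀) (by omega)
          omega
      · have main : ∀ i j, i < k → k ≤ j → j < n → s i ≠ s (j - t₀) + t₀ := by
          intro i j hi hj hj' he
          -- the position `i` has value at least `k`
          have a1 := (up_high hs (by omega) hs0).2 (j - t₀) (by omega) (by omega)
          have a2 := hs.1 i hi
          omega
        intro i j hi hj he
        simp only at he
        split_ifs at he with h h' h'
        · exact hs.2 i j h h' he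
        · exact absurd he (main i j h (by omega) hj)
        · exact absurd he.symm (main j i h' (by omega) hi)
        · have := hs.2 (i - t₀) (j - t₀) (by omega) (by omega) (by omega)
          omega
    unfold N
    rw [Finset.card_pos]
    refine ⟨mkP _ hp, ?_⟩
    simp only [Finset.mem_filter, Finset.mem_univ, true_and]
    intro β hβ
    rw [hM₀, Finset.mem_insert, Finset.mem_singleton] at hβ
    rcases hβ with rfl | rfl
    · refine ⟨by simp only; omega, by simp only; omega, fun j hj => ?_⟩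
      simp only [zero_add, add_zero]
      rw [fn_mkP hp (by omega), if_pos hj]
    · refine ⟨by simp only; omega, by simp only; omega, fun j hj => ?_⟩
      simp only
      rw [fn_mkP hp (by omega)]
      split_ifs with h
      · rw [add_comm t₀ j]
        exact hs0 j (by omega)
      · congr 2
        omega
  intro hcon
  have e1 : (Av k n s : ℤ) - Av k n t = N k n s M₀ := by
    rw [Av_eq, Av_eq, ← Finset.sum_sub_distrib]
    rw [Finset.sum_eq_single M₀]
    · rw [hcard, hB M₀ (Finset.Subset.refl _)]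
      simp
    · intro M _ hne
      by_cases hM : M₀ ⊆ M
      · rw [hB M hM, hC M hM hne]
        simp
      · rw [hA M hM]
        simp
    · intro h
      exfalso
      apply h
      rw [Finset.mem_powerset, hM₀]
      intro x hx
      rw [Finset.mem_insert, Finset.mem_singleton] at hx
      simp only [Bl, Finset.mem_product, Finset.mem_range]
      rcases hx with rfl | rfl
      · simp only; omega
      · simp only; omega
  rw [hcon, sub_self] at e1
  have : (0 : ℤ) < N k n s M₀ := by exact_mod_cast hE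
  omega

end Pool.Agent.Q314.Hz
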