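import Mathlib

/-!
# Period sets of words with equal first and last letter are period sets of binary palindromes
-/

namespace Pool.Agent.Q314.Hz

/-- the word `w 0 … w (n-1)` has period `t` -/
def Per {α : Type*} (w : ℕ → α) (n t : ℕ) : Prop := ∀ j, j + t < n → w j = w (j + t)

/-- the word `w 0 … w (n-1)` is a palindrome -/
def PalW {α : Type*} (w : ℕ → α) (n : ℕ) : Prop := ∀ j, j < n → w j = w (n - 1 - j)

variable {α : Type*}

/-- a weak form of the theorem of Fine and Wilf -/
theorem fine_wilf (w : ℕ → α) (n : ℕ) : ∀ (s p q : ℕ), p + q ≤ s → 1 ≤ p → 1 ≤ q → p + q ≤ n →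
    Per w n p → Per w n q → Per w n (Nat.gcd p q) := by
  intro s
  induction s with
  | zero => intro p q h hp hq; omega
  | succ s ih =>
    intro p q hs hp hq hn h1 h2
    rcases lt_trichotomy p q with h | h | h
    · have h3 : Per w n (q - p) := by
        intro j hj
        by_cases hjq : j + q < n
        · rw [h2 j hjq, h1 (j + (q - p)) (by omega)]
          congr 1
          omega
        · have e1 := h1 (j - p) (by omega)
          have e2 := h2 (j - p) (by omega)
          rw [show j - p + p = j by omega] at e1
          rw [show j - p + q = j + (q - p) by omega] at e2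
          rw [← e1, e2]
      have := ih p (q - p) (by omega) hp (by omega) (by omega) h1 h3
      rwa [Nat.gcd_sub_self_right h.le] at this
    · subst h
      simpa using h1
    · have h3 : Per w n (p - q) := by
        intro j hj
        by_cases hjq : j + p < n
        · rw [h1 j hjq, h2 (j + (p - q)) (by omega)]
          congr 1
          omega
        · have e1 := h2 (j - q) (by omega)
          have e2 := h1 (j - q) (by omega)
          rw [show j - q + q = j by omega] at e1
          rw [show j - q + p = j + (p - q) by omega] at e2
          rw [← e1, e2]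
      have := ih (p - q) q (by omega) (by omega) hq (by omega) h3 h2
      rwa [Nat.gcd_sub_self_left h.le] at this

/-- periods larger than a given period are periods of the corresponding border -/
theorem per_iff_border {w : ℕ → α} {n t₀ t : ℕ} (h0 : Per w n t₀) (h1 : t₀ < t) :
    Per w n t ↔ Per w (n - t₀) (t - t₀) := by
  constructor
  · intro h j hj
    have e1 := h j (by omega)
    have e2 := h0 (j + (t - t₀)) (by omega)
    rw [e1, e2]
    congr 1
    omega
  · intro h j hj
    have e1 := h j (by omega)
    have e2 := h0 (j + (t - t₀)) (by omega)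
    rw [e1, e2]
    congr 1
    omega

/-- a word with period `g` on a prefix: reduction modulo `g` -/
theorem per_mod {w : ℕ → α} {n g : ℕ} (hg : 1 ≤ g) (h : Per w n g) : ∀ j, j < n → w j = w (j % g) := by
  intro j
  induction j using Nat.strong_induction_on with
  | _ j ih =>
    intro hj
    by_cases hjg : j < g
    · rw [Nat.mod_eq_of_lt hjg]
    · have e1 := h (j - g) (by omega)
      rw [show j - g + g = j by omega] at e1
      rw [← e1, ih (j - g) (by omega) (by omega)]
      congr 1
      rw [← Nat.mod_eq_sub_mod (by omega)]

theorem per_of_dvd {w : ℕ → α} {n g t : ℕ} (hg : 1 ≤ g) (h : Per w n g) (hd : g ∣ t) : Per w n t := by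
  intro j hj
  rw [per_mod hg h j (by omega), per_mod hg h (j + t) hj]
  congr 1
  obtain ⟨c, rfl⟩ := hd
  simp

theorem per_mono {w : ℕ → α} {n m t : ℕ} (h : Per w n t) (hm : m ≤ n) : Per w m t :=
  fun j hj => h j (by omega)

/-- Key extension step. -/
theorem extend (v : ℕ → α) (x : ℕ → Bool) (m t₀ : ℕ) (hm : 1 ≤ m) (ht : 1 ≤ t₀)
    (hv : Per v (m + t₀) t₀) (hmin : ∀ t, 1 ≤ t → t < t₀ → ¬ Per v (m + t₀) t)
    (hx : PalW x m) (hx0 : x 0 = false)
    (hvx : ∀ s, 1 ≤ s → s < m → (Per v m s ↔ Per x m s)) :
    ∃ w : ℕ → Bool, PalW w (m + t₀) ∧ (∀ j, j < m → w j = x j) ∧ Per w (m + t₀) t₀ ∧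
      ∀ t, 1 ≤ t → t < t₀ → ¬ Per w (m + t₀) t := by
  by_cases htm : t₀ ≤ m
  · -- periodic extension
    have hxm : ∀ j, j < m → x (j % t₀) = x j := by
      intro j hj
      rcases htm.lt_or_eq with h | h
      · have hp : Per x m t₀ := (hvx t₀ ht h).1 (per_mono hv (by omega))
        exact (per_mod ht hp j hj).symm
      · rw [h, Nat.mod_eq_of_lt hj]
    have hb : ∀ j, j < m → x ((j + t₀) % t₀) = x j := by
      intro j hj
      rw [Nat.add_mod_right]
      exact hxm j hj
    refine ⟨fun j => x (j % t₀), ?_, hxm, ?_, ?_⟩
    · have key : ∀ j, j < m → x (j % t₀) = x ((m + t₀ - 1 - j) % t₀) := by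
        intro j hj
        rw [hxm j hj, show m + t₀ - 1 - j = (m - 1 - j) + t₀ by omega, hb _ (by omega), hx j hj]
      intro j hj
      show x (j % t₀) = x ((m + t₀ - 1 - j) % t₀)
      by_cases h : j < m
      · exact key j h
      · have := key (m + t₀ - 1 - j) (by omega)
        rw [this]
        congr 2
        omega
    · intro j hj
      show x (j % t₀) = x ((j + t₀) % t₀)
      rw [Nat.add_mod_right]
    · intro t h1 h2 hP
      have hPt0 : Per (fun j => x (j % t₀)) (m + t₀) t₀ := by
        intro j hj
        show x (j % t₀) = x ((j + t₀) % t₀)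
        rw [Nat.add_mod_right]
      have hg := fine_wilf _ _ (t + t₀) t t₀ le_rfl h1 ht (by omega) hP hPt0
      set g := Nat.gcd t t₀ with hgdef
      have hg1 : 1 ≤ g := Nat.gcd_pos_of_pos_left _ (by omega)
      have hgt : g ≤ t := Nat.gcd_le_left _ (by omega)
      have hgd : g ∣ t₀ := Nat.gcd_dvd_right _ _
      have hxg : Per x m g := by
        intro j hj
        have := hg j (by omega)
        simp only at this
        rw [hxm j (by omega), hxm (j + g) hj] at this
        exact this
      have hvg : Per v m g := (hvx g hg1 (by omega)).2 hxg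
      apply hmin g hg1 (by omega)
      intro j hj
      have e1 : ∀ i, i < m + t₀ → v i = v (i % g) := by
        intro i hi
        rw [per_mod ht hv i hi]
        have h3 : i % t₀ < t₀ := Nat.mod_lt _ (by omega)
        rw [per_mod hg1 hvg (i % t₀) (by omega)]
        congr 1
        exact Nat.mod_mod_of_dvd i hgd
      rw [e1 j (by omega), e1 (j + g) hj, Nat.add_mod_right]
  · push Not at htm
    -- the words `x c^l x`
    set W : Bool → ℕ → Bool := fun c j => if j < m then x j else if j < t₀ then c else x (j - t₀)
      with hW
    have hWx : ∀ c j, j < m → W c j = x j := fun c j hj => by simp only [hW]; rw [if_pos hj]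
    have hWc : ∀ c j, m ≤ j → j < t₀ → W c j = c := fun c j h1 h2 => by
      simp only [hW]; rw [if_neg (by omega), if_pos h2]
    have hWr : ∀ c j, t₀ ≤ j → W c j = x (j - t₀) := fun c j h1 => by
      simp only [hW]; rw [if_neg (by omega), if_neg (by omega)]
    have hpal : ∀ c, PalW (W c) (m + t₀) := by
      intro c j hj
      by_cases h1 : j < m
      · rw [hWx c j h1, hWr c _ (by omega), hx j h1]
        congr 1
        omega
      · by_cases h2 : j < t₀
        · rw [hWc c j (by omega) h2, hWc c _ (by omega) (by omega)]
        · rw [hWr c j (by omega), hWx c _ (by omega), hx _ (by omega)]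
          congr 1
          omega
    have hper : ∀ c, Per (W c) (m + t₀) t₀ := by
      intro c j hj
      rw [hWx c j (by omega), hWr c _ (by omega)]
      congr 1
      omega
    have hxl : x (m - 1) = false := by rw [← hx0, hx 0 (by omega)]; rfl
    -- small periods divide
    have hsmall : ∀ c t, 1 ≤ t → t ≤ m → Per (W c) (m + t₀) t →
        ∃ g, 1 ≤ g ∧ g ≤ m ∧ g ∣ t₀ ∧ Per (W c) (m + t₀) g := by
      intro c t h1 h2 hP
      refine ⟨Nat.gcd t t₀, Nat.gcd_pos_of_pos_left _ (by omega),
        le_trans (Nat.gcd_le_left _ (by omega)) h2, Nat.gcd_dvd_right _ _, ?_⟩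
      exact fine_wilf _ _ (t + t₀) t t₀ le_rfl h1 ht (by omega) hP (hper c)
    by_cases hbad : ∃ t, 1 ≤ t ∧ t ≤ m ∧ Per (W true) (m + t₀) t
    · -- choose c = false
      obtain ⟨t, h1, h2, hP⟩ := hbad
      obtain ⟨g, hg1, hgm, hgd, hgP⟩ := hsmall true t h1 h2 hP
      have hlg : t₀ - m < g := by
        by_contra hcon
        push Not at hcon
        -- all letters true
        have e1 : W true (m - 1) = W true (m - 1 + g) := hgP _ (by omega)
        rw [hWx _ _ (by omega), hWc _ _ (by omega) (by omega), hxl] at e1
        exact absurd e1 (by simp)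
      refine ⟨W false, hpal _, fun j hj => hWx _ j hj, hper _, ?_⟩
      intro t' h1' h2' hP'
      by_cases h3 : t' ≤ m
      · obtain ⟨g', hg1', hgm', hgd', hgP'⟩ := hsmall false t' h1' h3 hP'
        -- `g ≠ g'` are proper divisors of `t₀`
        have a1 : x (t₀ - 1 - g) = true := by
          have := hgP (t₀ - 1 - g) (by omega)
          rw [hWx _ _ (by omega), show t₀ - 1 - g + g = t₀ - 1 by omega,
            hWc _ _ (by omega) (by omega)] at this
          exact this
        have hlg' : t₀ - m < g' := by
          by_contra hcon
          push Not at hcon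
          have hh : ∀ i, i < m → x i = false := by
            intro i hi
            have e2 : ∀ i, i < m + t₀ → W false i = W false (i % g') :=
              fun i hi => per_mod hg1' hgP' i hi
            have e3 := e2 i (by omega)
            rw [hWx _ _ hi] at e3
            -- find an index in [m, t₀) congruent to i
            have hi' : i % g' < g' := Nat.mod_lt _ (by omega)
            set j := m + (i + g' * m - m) % g' with hj
            have hj1 : (i + g' * m - m) % g' < g' := Nat.mod_lt _ (by omega)
            have e4 := e2 j (by omega)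
            rw [hWc _ _ (by omega) (by omega)] at e4
            have e5 : j % g' = i % g' := by
              rw [hj, Nat.add_mod_mod]
              have : m ≤ i + g' * m := by nlinarith
              rw [show m + (i + g' * m - m) = i + g' * m by omega]
              simp
            rw [e3, ← e5, ← e4]
          rw [hh _ (by omega)] at a1
          exact absurd a1 (by simp)
        have a2 : x (t₀ - 1 - g') = false := by
          have := hgP' (t₀ - 1 - g') (by omega)
          rw [hWx _ _ (by omega), show t₀ - 1 - g' + g' = t₀ - 1 by omega,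
            hWc _ _ (by omega) (by omega)] at this
          exact this
        have hne : g ≠ g' := by
          intro h; rw [h, a2] at a1; exact absurd a1 (by simp)
        have hsum : g + g' < t₀ := by
          obtain ⟨c, hc⟩ := hgd
          obtain ⟨c', hc'⟩ := hgd'
          have c1 : 2 ≤ c := by
            by_contra h
            have : c = 0 ∨ c = 1 := by omega
            rcases this with rfl | rfl <;> omega
          have c1' : 2 ≤ c' := by
            by_contra h
            have : c' = 0 ∨ c' = 1 := by omega
            rcases this with rfl | rfl <;> omega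
          have : 2 * g ≤ t₀ := by rw [hc]; nlinarith
          have : 2 * g' ≤ t₀ := by rw [hc']; nlinarith
          omega
        have b1 := hgP' (t₀ - 1 - g - g') (by omega)
        rw [show t₀ - 1 - g - g' + g' = t₀ - 1 - g by omega, hWx _ _ (by omega),
          hWx _ _ (by omega), a1] at b1
        have b2 := hgP (t₀ - 1 - g - g') (by omega)
        rw [show t₀ - 1 - g - g' + g = t₀ - 1 - g' by omega, hWx _ _ (by omega),
          hWx _ _ (by omega), a2, b1] at b2
        exact absurd b2 (by simp)
      · -- middle periods
        push Not at h3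
        have hex : ∃ i, i < m ∧ x i = true := by
          refine ⟨t₀ - 1 - g, by omega, ?_⟩
          have := hgP (t₀ - 1 - g) (by omega)
          rw [hWx _ _ (by omega), show t₀ - 1 - g + g = t₀ - 1 by omega,
            hWc _ _ (by omega) (by omega)] at this
          exact this
        classical
        have hfind := Nat.find_spec hex
        set i := Nat.find hex with hi
        have hlt : ∀ i', i' < i → i' < m → x i' = false := by
          intro i' h4 h5
          have := Nat.find_min hex h4
          by_contra h6
          exact this ⟨h5, by simpa using h6⟩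
        have e1 := hP' i (by omega)
        rw [hWx _ _ hfind.1, hfind.2] at e1
        by_cases h7 : i + t' < t₀
        · rw [hWc _ _ (by omega) h7] at e1
          exact absurd e1 (by simp)
        · rw [hWr _ _ (by omega), hlt _ (by omega) (by omega)] at e1
          exact absurd e1 (by simp)
    · push Not at hbad
      refine ⟨W true, hpal _, fun j hj => hWx _ j hj, hper _, ?_⟩
      intro t h1 h2 hP
      by_cases h3 : t ≤ m
      · exact hbad t h1 h3 hP
      · push Not at h3
        have e1 := hP 0 (by omega)
        rw [hWx _ _ (by omega), hx0, zero_add, hWc _ _ (by omega) (by omega)] at e1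
        exact absurd e1 (by simp)

/-- Every word whose first and last letter agree has the same periods as some binary palindrome
of the same length. -/
theorem exists_pal (v : ℕ → α) : ∀ n : ℕ, 1 ≤ n → Per v n (n - 1) →
    ∃ w : ℕ → Bool, PalW w n ∧ w 0 = false ∧ ∀ t, 1 ≤ t → t < n → (Per v n t ↔ Per w n t) := by
  intro n
  induction n using Nat.strong_induction_on with
  | _ n ih =>
    intro hn hv
    by_cases h1 : n = 1
    · subst h1
      exact ⟨fun _ => false, fun _ _ => rfl, rfl, fun t ht ht' => by omega⟩
    classical
    have hex : ∃ t, 1 ≤ t ∧ Per v n t := ⟨n - 1, by omega, hv⟩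
    have hsp := Nat.find_spec hex
    set t₀ := Nat.find hex with ht₀
    have hle : t₀ ≤ n - 1 := Nat.find_min' hex ⟨by omega, hv⟩
    have hmin : ∀ t, 1 ≤ t → t < t₀ → ¬ Per v n t := fun t h2 h3 h4 =>
      Nat.find_min hex h3 ⟨h2, h4⟩
    obtain ⟨m, hm⟩ : ∃ m, n = m + t₀ := ⟨n - t₀, by omega⟩
    have hm1 : 1 ≤ m := by omega
    have hvm : Per v m (m - 1) := by
      intro j hj
      have hj0 : j = 0 := by omega
      subst hj0
      have e1 := hv 0 (by omega)
      have e2 := hsp.2 (m - 1) (by omega)
      rw [zero_add] at *
      rw [e1, e2]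
      congr 1
      omega
    obtain ⟨x, hx1, hx2, hx3⟩ := ih m (by omega) hm1 hvm
    rw [hm] at hsp hmin ⊢
    obtain ⟨w, hw1, hw2, hw3, hw4⟩ := extend v x m t₀ hm1 hsp.1 hsp.2 hmin hx1 hx2 hx3
    refine ⟨w, hw1, by rw [hw2 0 (by omega), hx2], ?_⟩
    intro t h2 h3
    rcases lt_trichotomy t t₀ with h | h | h
    · exact iff_of_false (hmin t h2 h) (hw4 t h2 h)
    · subst h; exact iff_of_true hsp.2 hw3
    · rw [per_iff_border hsp.2 h, per_iff_border hw3 h, Nat.add_sub_cancel,
        hx3 (t - t₀) (by omega) (by omega)]
      constructor
      · intro hh j hj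
        rw [hw2 j (by omega), hw2 _ hj]
        exact hh j hj
      · intro hh j hj
        have := hh j hj
        rwa [hw2 j (by omega), hw2 _ hj] at this

end Pool.Agent.Q314.Hz
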