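import Pool.Agent.Q314.Hz.Perm
import Pool.Agent.Q314.Hz.Pal

/-!
# Shift sets of permutations are period sets of binary palindromes, and conversely
-/

namespace Pool.Agent.Q314.Hz

/-- `c` is a cut of `s` -/
def Cut (s : ℕ → ℕ) (k c : ℕ) : Prop := ∀ p, p < k → (p < c ↔ s p < c)

theorem cut_shift {k t c : ℕ} {s : ℕ → ℕ} (h : IsP k s) (hu : Up s k t) (hc : c + t ≤ k) :
    Cut s k c ↔ Cut s k (c + t) := by
  have hl := up_low h (by omega) hu
  have hh := up_high h (by omega) hu
  constructor
  · intro hC p hp
    by_cases hpt : p < t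
    · have := hl.1 p hpt
      exact ⟨fun _ => by omega, fun _ => by omega⟩
    · have e := hu (p - t) (by omega)
      rw [show p - t + t = p by omega] at e
      have := hC (p - t) (by omega)
      rw [e]
      constructor
      · intro h1
        have := this.1 (by omega)
        omega
      · intro h1
        have := this.2 (by omega)
        omega
  · intro hC p hp
    by_cases hpt : p < k - t
    · have e := hu p (by omega)
      have := hC (p + t) (by omega)
      rw [e] at this
      constructor
      · intro h1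
        have := this.1 (by omega)
        omega
      · intro h1
        have := this.2 (by omega)
        omega
    · have := hh.2 p (by omega) hp
      exact ⟨fun _ => by omega, fun _ => by omega⟩

theorem cut_zero (s : ℕ → ℕ) (k : ℕ) : Cut s k 0 := fun p _ => by simp

theorem cut_top {s : ℕ → ℕ} {k : ℕ} (h : IsP k s) : Cut s k k :=
  fun p hp => ⟨fun _ => h.1 p hp, fun _ => hp⟩

open Classical in
/-- the word of a permutation -/
noncomputable def vw (s : ℕ → ℕ) (k j : ℕ) : Option (ℤ × ℤ) :=
  if Cut s k j then none else some ((s (j - 1) : ℤ) - ((j - 1 : ℕ) : ℤ), (s j : ℤ) - j)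

theorem vw_cut {s : ℕ → ℕ} {k j : ℕ} (h : Cut s k j) : vw s k j = none := by
  unfold vw; rw [if_pos h]

theorem vw_not {s : ℕ → ℕ} {k j : ℕ} (h : ¬ Cut s k j) :
    vw s k j = some ((s (j - 1) : ℤ) - ((j - 1 : ℕ) : ℤ), (s j : ℤ) - j) := by
  unfold vw; rw [if_neg h]

theorem vw_none {s : ℕ → ℕ} {k j : ℕ} : vw s k j = none ↔ Cut s k j := by
  constructor
  · intro h
    by_contra hc
    rw [vw_not hc] at h
    exact absurd h (by simp)
  · exact vw_cut

theorem cut_pair {s : ℕ → ℕ} {k j : ℕ} (hj : j < k) (h1 : Cut s k j) (h2 : Cut s k (j + 1)) :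
    s j = j := by
  have a := (h1 j hj)
  have b := (h2 j hj)
  have c := b.1 (by omega)
  have d : ¬ s j < j := fun h => by
    have := a.2 h
    omega
  omega

theorem up_iff_per {k t : ℕ} {s : ℕ → ℕ} (h : IsP k s) (ht : 1 ≤ t) (_htk : t < k) :
    Up s k t ↔ Per (vw s k) (k + 1) t := by
  constructor
  · intro hu j hj
    have hc := cut_shift h hu (c := j) (by omega)
    by_cases hcj : Cut s k j
    · rw [vw_cut hcj, vw_cut (hc.1 hcj)]
    · have hcj' : ¬ Cut s k (j + t) := fun hh => hcj (hc.2 hh)
      rw [vw_not hcj, vw_not hcj']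
      have hj0 : j ≠ 0 := by
        rintro rfl
        exact hcj (cut_zero s k)
      have hjk : j + t ≠ k := by
        intro he
        apply hcj'
        rw [he]
        exact cut_top h
      have e1 := hu (j - 1) (by omega)
      have e2 := hu j (by omega)
      rw [show j - 1 + t = j + t - 1 by omega] at e1
      rw [e1, e2]
      congr 2
      · have : ((j + t - 1 : ℕ) : ℤ) = ((j - 1 : ℕ) : ℤ) + t := by
          rw [show j + t - 1 = (j - 1) + t by omega]
          push_cast
          ring
        rw [this]
        push_cast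
        ring
      · push_cast
        ring
  · intro hp j hj
    have p1 := hp j (by omega)
    have p2 := hp (j + 1) (by omega)
    by_cases h1 : Cut s k j
    · have h1' : Cut s k (j + t) := vw_none.1 (by rw [← p1]; exact vw_cut h1)
      by_cases h2 : Cut s k (j + 1)
      · have h2' : Cut s k (j + 1 + t) := vw_none.1 (by rw [← p2]; exact vw_cut h2)
        rw [cut_pair (by omega) h1 h2, cut_pair (by omega) h1' (by rwa [show j + t + 1 = j + 1 + t by omega])]
      · have h2' : ¬ Cut s k (j + 1 + t) := by
          intro hh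
          apply h2
          rw [← vw_none, p2]
          exact vw_cut hh
        rw [vw_not h2, vw_not h2'] at p2
        have := congrArg Prod.fst (Option.some.inj p2)
        simp only at this
        rw [show j + 1 - 1 = j by omega, show j + 1 + t - 1 = j + t by omega] at this
        push_cast at this
        have : (s (j + t) : ℤ) = s j + t := by linarith
        exact_mod_cast this
    · have h1' : ¬ Cut s k (j + t) := by
        intro hh
        apply h1
        rw [← vw_none, p1]
        exact vw_cut hh
      rw [vw_not h1, vw_not h1'] at p1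
      have := congrArg Prod.snd (Option.some.inj p1)
      simp only at this
      push_cast at this
      have : (s (j + t) : ℤ) = s j + t := by linarith
      exact_mod_cast this

/-- the upward shifts of a permutation are the periods of a binary palindrome -/
theorem exists_word {k : ℕ} {s : ℕ → ℕ} (h : IsP k s) :
    ∃ w : ℕ → Bool, PalW w (k + 1) ∧ ∀ t, 1 ≤ t → t < k → (Up s k t ↔ Per w (k + 1) t) := by
  obtain ⟨w, hw1, _, hw3⟩ := exists_pal (vw s k) (k + 1) (by omega) (by
    intro j hj
    have hj0 : j = 0 := by omega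
    subst hj0
    rw [vw_cut (cut_zero s k), zero_add, Nat.add_sub_cancel, vw_cut (cut_top h)])
  exact ⟨w, hw1, fun t h1 h2 => by rw [up_iff_per h h1 h2, hw3 t h1 (by omega)]⟩

section
variable (w : ℕ → Bool)

/-- the last cut at most `p` -/
def lo (p : ℕ) : ℕ := Nat.findGreatest (fun c => w c = w 0) p

/-- the first cut greater than `p` -/
noncomputable def hi (p : ℕ) : ℕ := sInf {c | p < c ∧ w c = w 0}

theorem lo_spec (p : ℕ) : lo w p ≤ p ∧ w (lo w p) = w 0 ∧ ∀ c, c ≤ p → w c = w 0 → c ≤ lo w p :=
  ⟨Nat.findGreatest_le p,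
    Nat.findGreatest_spec (P := fun c => w c = w 0) (Nat.zero_le p) rfl,
    fun _ hc h => Nat.le_findGreatest hc h⟩

variable {w}

theorem hi_spec {k : ℕ} (hk : w k = w 0) {p : ℕ} (hp : p < k) :
    p < hi w p ∧ w (hi w p) = w 0 ∧ hi w p ≤ k ∧ ∀ c, p < c → w c = w 0 → hi w p ≤ c := by
  have hne : {c | p < c ∧ w c = w 0}.Nonempty := ⟨k, hp, hk⟩
  have := Nat.sInf_mem hne
  exact ⟨this.1, this.2, Nat.sInf_le ⟨hp, hk⟩, fun c h1 h2 => Nat.sInf_le ⟨h1, h2⟩⟩

theorem lohi_eq {k : ℕ} (hk : w k = w 0) {p q : ℕ} (hp : p < k) (h1 : lo w p ≤ q) (h2 : q < hi w p) :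
    lo w q = lo w p ∧ hi w q = hi w p := by
  have a := lo_spec w p
  have b := hi_spec hk hp
  have c := lo_spec w q
  have d := hi_spec hk (p := q) (by omega)
  constructor
  · apply le_antisymm
    · apply a.2.2 _ _ c.2.1
      by_contra hcon
      have := b.2.2.2 (lo w q) (by omega) c.2.1
      omega
    · exact c.2.2 _ h1 a.2.1
  · apply le_antisymm
    · exact d.2.2.2 _ h2 b.2.1
    · apply b.2.2.2 _ _ d.2.1
      by_contra hcon
      have := a.2.2 (hi w q) (by omega) d.2.1
      omega

/-- the layered permutation -/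
noncomputable def lam (w : ℕ → Bool) (p : ℕ) : ℕ := lo w p + hi w p - 1 - p

theorem lam_bd {k : ℕ} (hk : w k = w 0) {p : ℕ} (hp : p < k) :
    lo w p ≤ lam w p ∧ lam w p < hi w p := by
  have a := lo_spec w p
  have b := hi_spec hk hp
  unfold lam
  omega

theorem lam_lam {k : ℕ} (hk : w k = w 0) {p : ℕ} (hp : p < k) : lam w (lam w p) = p := by
  have a := lo_spec w p
  have b := hi_spec hk hp
  have c := lam_bd hk hp
  have d := lohi_eq hk hp c.1 c.2
  rw [lam, d.1, d.2, lam]
  omega

theorem lam_isP {k : ℕ} (hk : w k = w 0) : IsP k (lam w) := by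
  constructor
  · intro p hp
    have b := hi_spec hk hp
    have c := lam_bd hk hp
    omega
  · intro p q hp hq he
    rw [← lam_lam hk hp, he, lam_lam hk hq]

theorem lam_cut {k : ℕ} (hk : w k = w 0) {c : ℕ} (hc : c ≤ k) : Cut (lam w) k c ↔ w c = w 0 := by
  constructor
  · intro hC
    by_contra hne
    have h1 : c ≠ k := by
      rintro rfl
      exact hne hk
    have a := lo_spec w c
    have b := hi_spec hk (p := c) (by omega)
    have h2 : lo w c ≠ c := by
      intro he
      rw [he] at a
      exact hne a.2.1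
    have d := lohi_eq hk (p := c) (q := lo w c) (by omega) le_rfl (by omega)
    have e := (hC (lo w c) (by omega)).1 (by omega)
    rw [lam, d.1, d.2] at e
    omega
  · intro hw p hp
    have a := lo_spec w p
    have b := hi_spec hk hp
    have d := lam_bd hk hp
    constructor
    · intro h1
      have := b.2.2.2 c h1 hw
      omega
    · intro h1
      by_contra hcon
      have := a.2.2 c (by omega) hw
      omega

theorem lam_up_iff {k t : ℕ} (hk : w k = w 0) (ht : 1 ≤ t) (htk : t < k) :
    Up (lam w) k t ↔ Per w (k + 1) t := by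
  constructor
  · intro hu j hj
    have := cut_shift (lam_isP hk) hu (c := j) (by omega)
    rw [lam_cut hk (by omega), lam_cut hk (by omega)] at this
    by_cases h : w j = w 0
    · rw [h, this.1 h]
    · have h' : w (j + t) ≠ w 0 := fun hh => h (this.2 hh)
      revert h h'
      cases w j <;> cases w (j + t) <;> cases w 0 <;> simp
  · intro hp j hj
    have a := lo_spec w j
    have b := hi_spec hk (p := j) (by omega)
    have a' := lo_spec w (j + t)
    have b' := hi_spec hk (p := j + t) (by omega)
    have hkt : w (k - t) = w 0 := by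
      have := hp (k - t) (by omega)
      rw [show k - t + t = k by omega, hk] at this
      exact this
    have e1 : lo w (j + t) = lo w j + t := by
      apply le_antisymm
      · by_contra hcon
        push Not at hcon
        have h1 := hp (lo w (j + t) - t) (by omega)
        rw [show lo w (j + t) - t + t = lo w (j + t) by omega, a'.2.1] at h1
        have := a.2.2 _ (by omega) h1
        omega
      · apply a'.2.2 _ (by omega)
        rw [← hp (lo w j) (by omega), a.2.1]
    have h3 : hi w j ≤ k - t := b.2.2.2 _ (by omega) hkt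
    have e2 : hi w (j + t) = hi w j + t := by
      apply le_antisymm
      · apply b'.2.2.2 _ (by omega)
        rw [← hp (hi w j) (by omega), b.2.1]
      · have h1 := hp (hi w (j + t) - t) (by omega)
        rw [show hi w (j + t) - t + t = hi w (j + t) by omega, b'.2.1] at h1
        have := b.2.2.2 _ (by omega) h1
        omega
    rw [lam, lam, e1, e2]
    omega

theorem lam_dn {k : ℕ} (hpal : PalW w (k + 1)) {j₀ : ℕ} (h1 : 1 ≤ j₀) (h2 : j₀ < k)
    (h3 : w j₀ = w 0) (t : ℕ) (ht : 1 ≤ t) (htk : t < k) : ¬ Dn (lam w) k t := by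
  intro hd
  have hk : w k = w 0 := by
    rw [hpal k (by omega)]
    congr 1
    omega
  have b := hi_spec hk (p := 0) (by omega)
  have c1 := b.2.2.2 j₀ (by omega) h3
  set c := hi w 0 with hc
  -- the first block
  have hlo : lo w 0 = 0 := by
    have := (lo_spec w 0).1
    omega
  have e0 : lam w 0 = c - 1 := by
    rw [lam, hlo, ← hc]
    omega
  have ec : lam w (c - 1) = 0 := by
    have d := lohi_eq hk (p := 0) (q := c - 1) (by omega) (by omega) (by omega)
    rw [lam, d.1, d.2, hlo, ← hc]
    omega
  have d0 := hd 0 (by omega)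
  rw [e0, zero_add] at d0
  -- symmetric cut
  have hsym : w (k - c) = w 0 := by
    rw [hpal (k - c) (by omega), ← b.2.1]
    congr 1
    omega
  have h4 := b.2.2.2 (k - c) (by omega) hsym
  have d1 := hd (c - 1) (by omega)
  rw [ec] at d1
  omega

end

/-- the cyclic shift has no shifts -/
theorem cyc_isP {k : ℕ} (hk : 3 ≤ k) : IsP k (fun p => if p + 1 < k then p + 1 else 0) := by
  constructor
  · intro j hj
    simp only
    split_ifs <;> omega
  · intro i j hi hj he
    simp only at he
    split_ifs at he <;> omega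

theorem cyc_up {k : ℕ} (_hk : 3 ≤ k) (t : ℕ) (ht : 1 ≤ t) (htk : t < k) :
    ¬ Up (fun p => if p + 1 < k then p + 1 else 0) k t := by
  intro hu
  have := hu (k - 1 - t) (by omega)
  simp only at this
  split_ifs at this <;> omega

theorem cyc_dn {k : ℕ} (hk : 3 ≤ k) (t : ℕ) (ht : 1 ≤ t) (htk : t < k) :
    ¬ Dn (fun p => if p + 1 < k then p + 1 else 0) k t := by
  intro hd
  have := hd 0 (by omega)
  simp only at this
  split_ifs at this <;> omega

/-- the periods of a binary palindrome are the upward shifts of a permutation without downward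
shifts -/
theorem exists_perm {k : ℕ} (hk3 : 3 ≤ k) {w : ℕ → Bool} (hpal : PalW w (k + 1)) :
    ∃ s : ℕ → ℕ, IsP k s ∧ (∀ t, 1 ≤ t → t < k → ¬ Dn s k t) ∧
      ∀ t, 1 ≤ t → t < k → (Up s k t ↔ Per w (k + 1) t) := by
  have hk : w k = w 0 := by
    rw [hpal k (by omega)]
    congr 1
    omega
  by_cases hex : ∃ j₀, 1 ≤ j₀ ∧ j₀ < k ∧ w j₀ = w 0
  · obtain ⟨j₀, h1, h2, h3⟩ := hex
    exact ⟨lam w, lam_isP hk, lam_dn hpal h1 h2 h3, fun t h4 h5 => lam_up_iff hk h4 h5⟩
  · refine ⟨_, cyc_isP hk3, cyc_dn hk3, fun t h4 h5 => ?_⟩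
    refine iff_of_false (cyc_up hk3 t h4 h5) fun hp => hex ⟨t, h4, h5, ?_⟩
    have := hp 0 (by omega)
    rw [this, zero_add]

end Pool.Agent.Q314.Hz
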