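import Mathlib

/-!
# Permutations of `{0, …, k-1}` as functions on `ℕ`, shifts and the geometry of two occurrences
-/

namespace Pool.Agent.Q314.Hz

/-- `s` restricts to a permutation of `{0, …, k-1}` -/
def IsP (k : ℕ) (s : ℕ → ℕ) : Prop :=
  (∀ j, j < k → s j < k) ∧ ∀ i j, i < k → j < k → s i = s j → i = j

/-- upward self-overlap -/
def Up (s : ℕ → ℕ) (k t : ℕ) : Prop := ∀ j, j + t < k → s (j + t) = s j + t

/-- downward self-overlap -/
def Dn (s : ℕ → ℕ) (k t : ℕ) : Prop := ∀ j, j + t < k → s (j + t) + t = s j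

theorem IsP.surj {k : ℕ} {s : ℕ → ℕ} (h : IsP k s) : ∀ v, v < k → ∃ j, j < k ∧ s j = v := by
  intro v hv
  have := Finset.surj_on_of_inj_on_of_card_le (s := Finset.range k) (t := Finset.range k)
    (fun j _ => s j) (fun j hj => Finset.mem_range.2 (h.1 j (Finset.mem_range.1 hj)))
    (fun i j hi hj he => h.2 i j (Finset.mem_range.1 hi) (Finset.mem_range.1 hj) he) le_rfl v
    (Finset.mem_range.2 hv)
  obtain ⟨j, hj, hjv⟩ := this
  exact ⟨j, Finset.mem_range.1 hj, hjv.symm⟩

theorem IsP.low {k c : ℕ} {s : ℕ → ℕ} (h : IsP k s) (hc : c ≤ k) (h1 : ∀ j, j < c → s j < c) :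
    ∀ j, c ≤ j → j < k → c ≤ s j := by
  intro j hj1 hj2
  by_contra hcon
  push Not at hcon
  have hc' : IsP c s := ⟨h1, fun i j hi hj he => h.2 i j (by omega) (by omega) he⟩
  obtain ⟨i, hi, he⟩ := hc'.surj (s j) hcon
  have := h.2 i j (by omega) hj2 he
  omega

theorem IsP.high {k c : ℕ} {s : ℕ → ℕ} (h : IsP k s) (hc : c ≤ k)
    (h1 : ∀ j, c ≤ j → j < k → c ≤ s j) : ∀ j, j < c → s j < c := by
  intro j hj
  by_contra hcon
  push Not at hcon
  have hp : IsP (k - c) (fun i => s (i + c) - c) := by
    refine ⟨fun i hi => ?_, fun i j hi hj he => ?_⟩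
    · have := h.1 (i + c) (by omega)
      have := h1 (i + c) (by omega) (by omega)
      show s (i + c) - c < k - c
      omega
    · have a1 := h1 (i + c) (by omega) (by omega)
      have a2 := h1 (j + c) (by omega) (by omega)
      have he' : s (i + c) - c = s (j + c) - c := he
      have := h.2 (i + c) (j + c) (by omega) (by omega) (by omega)
      omega
  have hk := h.1 j (by omega)
  obtain ⟨i, hi, he⟩ := hp.surj (s j - c) (by omega)
  have he' : s (i + c) - c = s j - c := he
  have a1 := h1 (i + c) (by omega) (by omega)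
  have := h.2 (i + c) j (by omega) (by omega) (by omega)
  omega

/-- an upward shift by `t`: the values below `t` are at the positions below `t` -/
theorem up_low {k t : ℕ} {s : ℕ → ℕ} (h : IsP k s) (ht : t ≤ k) (hu : Up s k t) :
    (∀ j, j < t → s j < t) ∧ (∀ j, t ≤ j → j < k → t ≤ s j) := by
  have h1 : ∀ j, t ≤ j → j < k → t ≤ s j := by
    intro j hj1 hj2
    have := hu (j - t) (by omega)
    rw [show j - t + t = j by omega] at this
    omega
  exact ⟨h.high ht h1, h1⟩

/-- an upward shift by `t`: the values below `k - t` are at the positions below `k - t` -/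
theorem up_high {k t : ℕ} {s : ℕ → ℕ} (h : IsP k s) (_ht : t ≤ k) (hu : Up s k t) :
    (∀ j, j < k - t → s j < k - t) ∧ (∀ j, k - t ≤ j → j < k → k - t ≤ s j) := by
  have h1 : ∀ j, j < k - t → s j < k - t := by
    intro j hj
    have e := hu j (by omega)
    have := h.1 (j + t) (by omega)
    omega
  exact ⟨h1, h.low (by omega) h1⟩

theorem up_add {k t u : ℕ} {s : ℕ → ℕ} (h1 : Up s k t) (h2 : Up s k u) : Up s k (t + u) := by
  intro j hj
  rw [← add_assoc, h2 (j + t) (by omega), h1 j (by omega)]
  omega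

/-- a permutation does not have both an upward and a downward shift -/
theorem not_both {k t u : ℕ} {s : ℕ → ℕ} (h : IsP k s) (ht1 : 1 ≤ t) (htk : t < k) (hu1 : 1 ≤ u)
    (huk : u < k) (hU : Up s k t) (hD : Dn s k u) : False := by
  have a1 := hU 0 (by omega)
  have a2 := hD 0 (by omega)
  rw [zero_add] at a1 a2
  have a3 := h.1 t htk
  obtain ⟨p, hp, hp0⟩ := h.surj 0 (by omega)
  have a4 : k - u ≤ p := by
    by_contra hcon
    have := hD p (by omega)
    omega
  have a5 : p < t := by
    by_contra hcon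
    have := hU (p - t) (by omega)
    rw [show p - t + t = p by omega] at this
    omega
  omega

/-- `n` pairwise different numbers below `m` -/
theorem card_le_of_inj {n m : ℕ} (f : ℕ → ℕ) (h1 : ∀ j, j < n → f j < m)
    (h2 : ∀ i j, i < n → j < n → f i = f j → i = j) : n ≤ m := by
  have := Finset.card_le_card_of_injOn (s := Finset.range n) (t := Finset.range m) f
    (fun j hj => by
      rw [Finset.mem_coe, Finset.mem_range] at hj ⊢
      exact h1 j hj)
    (fun i hi j hj he => by
      rw [Finset.mem_coe, Finset.mem_range] at hi hj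
      exact h2 i j hi hj he)
  simpa using this

/-- the occurrence of `s` at the block `(a, b)` -/
def AtB (k n : ℕ) (s f : ℕ → ℕ) (β : ℕ × ℕ) : Prop :=
  β.1 + k ≤ n ∧ β.2 + k ≤ n ∧ ∀ j, j < k → f (β.1 + j) = s j + β.2

/-- two overlapping occurrences -/
theorem overlap {k n : ℕ} {s f : ℕ → ℕ} (hs : IsP k s) (hf : IsP n f) {β γ : ℕ × ℕ}
    (h1 : AtB k n s f β) (h2 : AtB k n s f γ) (hlt : β.1 < γ.1) (hk : γ.1 < β.1 + k) :
    (γ.2 = β.2 + (γ.1 - β.1) ∧ Up s k (γ.1 - β.1)) ∨
    (β.2 = γ.2 + (γ.1 - β.1) ∧ Dn s k (γ.1 - β.1)) := by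
  obtain ⟨a, b⟩ := β
  obtain ⟨a', b'⟩ := γ
  obtain ⟨A1, A2, A3⟩ := h1
  obtain ⟨B1, B2, B3⟩ := h2
  simp only at *
  set t := a' - a with ht
  have key : ∀ j, j + t < k → s (j + t) + b = s j + b' := by
    intro j hj
    rw [← A3 (j + t) (by omega), ← B3 j (by omega)]
    congr 1
    omega
  rcases le_total b b' with hb | hb
  · left
    obtain ⟨e, he⟩ : ∃ e, b' = b + e := ⟨b' - b, by omega⟩
    have key' : ∀ j, j + t < k → s (j + t) = s j + e := fun j hj => by
      have := key j hj
      omega
    have e1 : k - t ≤ k - e := by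
      apply card_le_of_inj s
      · intro j hj
        have := key' j (by omega)
        have := hs.1 (j + t) (by omega)
        omega
      · intro i j hi hj he'
        exact hs.2 i j (by omega) (by omega) he'
    have e2 : k - e ≤ k - t := by
      have hch : ∀ v, ∃ j, v < k - e → j < k - t ∧ s j = v := by
        intro v
        by_cases hv : v < k - e
        · obtain ⟨j, hj, hjv⟩ := hs.surj v (by omega)
          obtain ⟨i, hi, hiv⟩ := hs.surj (v + e) (by omega)
          have c1 := B3 j hj
          have c2 := A3 i hi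
          have c3 := hf.2 (a' + j) (a + i) (by omega) (by omega) (by omega)
          exact ⟨j, fun _ => ⟨by omega, hjv⟩⟩
        · exact ⟨0, fun h => absurd h hv⟩
      choose g hg using hch
      apply card_le_of_inj g
      · intro v hv
        exact (hg v hv).1
      · intro v v' hv hv' he'
        rw [← (hg v hv).2, ← (hg v' hv').2, he']
    have e3 : e = t := by omega
    refine ⟨by omega, ?_⟩
    rw [← e3] at key' ⊢
    exact key'
  · right
    obtain ⟨e, he⟩ : ∃ e, b = b' + e := ⟨b - b', by omega⟩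
    have key' : ∀ j, j + t < k → s (j + t) + e = s j := fun j hj => by
      have := key j hj
      omega
    have e1 : k - t ≤ k - e := by
      apply card_le_of_inj (fun j => s (j + t))
      · intro j hj
        have := key' j (by omega)
        have := hs.1 j (by omega)
        show s (j + t) < k - e
        omega
      · intro i j hi hj he'
        have := hs.2 (i + t) (j + t) (by omega) (by omega) he'
        omega
    have e2 : k - e ≤ k - t := by
      have hch : ∀ v, ∃ j, v < k - e → j < k - t ∧ s j = v + e := by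
        intro v
        by_cases hv : v < k - e
        · obtain ⟨i, hi, hiv⟩ := hs.surj v (by omega)
          obtain ⟨j, hj, hjv⟩ := hs.surj (v + e) (by omega)
          have c1 := B3 j hj
          have c2 := A3 i hi
          have c3 := hf.2 (a' + j) (a + i) (by omega) (by omega) (by omega)
          exact ⟨j, fun _ => ⟨by omega, hjv⟩⟩
        · exact ⟨0, fun h => absurd h hv⟩
      choose g hg using hch
      apply card_le_of_inj g
      · intro v hv
        exact (hg v hv).1
      · intro v v' hv hv' he'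
        have c1 := (hg v hv).2
        have c2 := (hg v' hv').2
        rw [he', c2] at c1
        omega
    have e3 : e = t := by omega
    refine ⟨by omega, ?_⟩
    rw [← e3] at key' ⊢
    exact key'

theorem same_column {k n : ℕ} {s f : ℕ → ℕ} (hk : 1 ≤ k) {β γ : ℕ × ℕ}
    (h1 : AtB k n s f β) (h2 : AtB k n s f γ) (he : β.1 = γ.1) : β = γ := by
  have a1 := h1.2.2 0 hk
  have a2 := h2.2.2 0 hk
  rw [he] at a1
  exact Prod.ext he (by omega)

theorem disjoint_rows {k n : ℕ} {s f : ℕ → ℕ} (hk : 1 ≤ k) (hs : IsP k s) (hf : IsP n f)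
    {β γ : ℕ × ℕ} (h1 : AtB k n s f β) (h2 : AtB k n s f γ) (hlt : β.1 + k ≤ γ.1) :
    β.2 + k ≤ γ.2 ∨ γ.2 + k ≤ β.2 := by
  by_contra hcon
  push Not at hcon
  obtain ⟨i, hi, hiv⟩ := hs.surj (max β.2 γ.2 - β.2) (by omega)
  obtain ⟨j, hj, hjv⟩ := hs.surj (max β.2 γ.2 - γ.2) (by omega)
  have a1 := h1.2.2 i hi
  have a2 := h2.2.2 j hj
  have := h1.1
  have := h2.1
  have := hf.2 (β.1 + i) (γ.1 + j) (by omega) (by omega) (by omega)
  omega

end Pool.Agent.Q314.Hz
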